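import Mathlib.Topology.UnitInterval
import Mathlib.Topology.Maps.OpenQuotient
import Mathlib.Topology.Bases
import Mathlib.Topology.Separation.Basic
import Mathlib.Topology.MetricSpace.Basic
import Mathlib.Tactic.Linarith

/-!
# Metric analogs of based spaces, quasimetrizable spaces
-/

namespace X126.MA

universe u

/-- `(M, m₀)` with `q : M → X` is a metric analog of the based space `(X, x₀)`. -/
structure IsMetricAnalog {X : Type u} [TopologicalSpace X] (x0 : X) (M : Type u) [MetricSpace M]
    (m0 : M) (q : M → X) : Prop where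
  quot : Topology.IsQuotientMap q
  opn : IsOpenMap q
  base : q m0 = x0
  lift : ∀ (A : Type u) [MetricSpace A] (a0 : A) (f : A → X), Continuous f → f a0 = x0 →
    ∃ g : A → M, Continuous g ∧ g a0 = m0 ∧ f = q ∘ g
  homotopy : ∀ (A : Type u) [MetricSpace A] (a0 : A) (f g : A → M), Continuous f → Continuous g →
    f a0 = m0 → g a0 = m0 → q ∘ f = q ∘ g →
    ∃ F : A × unitInterval → M, Continuous F ∧ (∀ a, F (a, 0) = f a) ∧ (∀ a, F (a, 1) = g a) ∧
      (∀ s, F (a0, s) = m0) ∧ ∀ a s s', q (F (a, s)) = q (F (a, s'))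

/-- The based space `(X, x₀)` has a metric analog. -/
def HasMetricAnalog (X : Type u) [TopologicalSpace X] (x0 : X) : Prop :=
  ∃ (M : Type u) (_ : MetricSpace M) (m0 : M) (q : M → X), IsMetricAnalog x0 M m0 q

/-- Quasimetric. -/
structure IsQuasimetric {X : Type u} (d : X → X → ℝ) : Prop where
  nonneg : ∀ x y, 0 ≤ d x y
  self : ∀ x, d x x = 0
  tri : ∀ x y z, d x z ≤ d x y + d y z

/-- The topology of `X` has the balls of some quasimetric as a base. -/
def Quasimetrizable (X : Type u) [TopologicalSpace X] : Prop :=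
  ∃ d : X → X → ℝ, IsQuasimetric d ∧
    TopologicalSpace.IsTopologicalBasis {B : Set X | ∃ x r, B = {y | d x y < r}}

theorem isOpen_iff {X : Type u} [TopologicalSpace X] {d : X → X → ℝ} (hd : IsQuasimetric d)
    (hb : TopologicalSpace.IsTopologicalBasis {B : Set X | ∃ x r, B = {y | d x y < r}})
    (U : Set X) : IsOpen U ↔ ∀ x ∈ U, ∃ r > 0, ∀ y, d x y < r → y ∈ U := by
  constructor
  · intro hU x hx
    obtain ⟨B, ⟨z, r, rfl⟩, hxB, hBU⟩ := hb.exists_subset_of_mem_open hx hU
    have hxB' : d z x < r := hxB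
    refine ⟨r - d z x, by linarith, fun y hy => hBU ?_⟩
    show d z y < r
    have := hd.tri z x y
    linarith
  · intro h
    rw [hb.isOpen_iff]
    intro x hx
    obtain ⟨r, hr, hU⟩ := h x hx
    refine ⟨{y | d x y < r}, ⟨x, r, rfl⟩, ?_, fun y hy => hU y hy⟩
    show d x x < r
    rw [hd.self]
    exact hr

end X126.MA
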