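import Mathlib.Topology.ContinuousMap.Bounded.Normed
import Mathlib.Analysis.Normed.Group.FunctionSeries
import Mathlib.Analysis.SpecificLimits.Basic
import Pool.Agent.X126.MA.Defs

/-!
# Every quasimetrizable T₀ space has a metric analog
-/

namespace X126.MA

universe u

/-- index set with the discrete topology -/
structure Idx (X : Type u) : Type u where
  c : X
  r : ℝ

instance (X : Type u) : TopologicalSpace (Idx X) := ⊥

instance (X : Type u) : DiscreteTopology (Idx X) := ⟨rfl⟩

open BoundedContinuousFunction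

variable {X : Type u} (d : X → X → ℝ)

/-- `s_i(x) = max 0 (min r 1 - d c x)` -/
noncomputable def sf (i : Idx X) (x : X) : ℝ := max 0 (min i.r 1 - d i.c x)

theorem sf_nonneg (i : Idx X) (x : X) : 0 ≤ sf d i x := le_max_left _ _

variable {d}

theorem sf_le_one (hd : IsQuasimetric d) (i : Idx X) (x : X) : sf d i x ≤ 1 := by
  unfold sf
  apply max_le zero_le_one
  have := hd.nonneg i.c x
  have h2 := min_le_right i.r 1
  linarith

theorem sf_pos {i : Idx X} {x : X} (h : 0 < sf d i x) : d i.c x < min i.r 1 := by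
  unfold sf at h
  rcases lt_max_iff.1 h with h | h
  · exact absurd h (lt_irrefl _)
  · linarith

theorem sf_self (hd : IsQuasimetric d) (x : X) {r : ℝ} (hr : 0 < r) : 0 < sf d ⟨x, r⟩ x := by
  unfold sf
  apply lt_max_of_lt_right
  show 0 < min r 1 - d x x
  rw [hd.self, sub_zero]
  exact lt_min hr one_pos

theorem sf_tri (hd : IsQuasimetric d) (i : Idx X) (x x' : X) :
    sf d i x - d x x' ≤ sf d i x' := by
  unfold sf
  rw [sub_le_iff_le_add]
  apply max_le
  · have := hd.nonneg x x'
    have h2 := le_max_left 0 (min i.r 1 - d i.c x')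
    linarith
  · have := hd.tri i.c x x'
    have h2 := le_max_right 0 (min i.r 1 - d i.c x')
    linarith

variable (d)

/-- `t` is a good weight at `x` -/
def Good (x : X) (t : Idx X → ℝ) : Prop :=
  (∀ i, 0 ≤ t i ∧ t i ≤ sf d i x) ∧ ∀ r : ℝ, 0 < r → 0 < t ⟨x, r⟩

/-- the metric space -/
def MM : Type u := {t : Idx X →ᵇ ℝ // ∃ x, Good d x t}

noncomputable instance : MetricSpace (MM d) := inferInstanceAs (MetricSpace {t : Idx X →ᵇ ℝ // ∃ x, Good d x t})

/-- the projection -/
noncomputable def qq (m : MM d) : X := m.2.choose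

theorem qq_spec (m : MM d) : Good d (qq d m) m.1 := m.2.choose_spec

variable {d}

theorem good_unique [TopologicalSpace X] [T0Space X] (hd : IsQuasimetric d)
    (hb : ∀ U : Set X, IsOpen U ↔ ∀ x ∈ U, ∃ r > 0, ∀ y, d x y < r → y ∈ U)
    {x x' : X} {t : Idx X → ℝ} (h : Good d x t) (h' : Good d x' t) : x = x' := by
  have key : ∀ {x x' : X}, Good d x t → Good d x' t → ∀ U : Set X, IsOpen U → x ∈ U → x' ∈ U := by
    intro x x' h h' U hU hx
    obtain ⟨r, hr, hrU⟩ := (hb U).1 hU x hx
    have h1 := h.2 r hr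
    have h2 := (h'.1 ⟨x, r⟩).2
    have h3 := sf_pos (lt_of_lt_of_le h1 h2)
    exact hrU x' (lt_of_lt_of_le h3 (min_le_left _ _))
  apply Inseparable.eq
  rw [inseparable_iff_forall_isOpen]
  intro U hU
  exact ⟨key h h' U hU, key h' h U hU⟩

/-- constructor -/
noncomputable def mkM (hd : IsQuasimetric d) (x : X) (t : Idx X → ℝ) (h : Good d x t) : MM d :=
  ⟨BoundedContinuousFunction.ofNormedAddCommGroupDiscrete t 1 (fun i => by
    rw [Real.norm_eq_abs, abs_of_nonneg (h.1 i).1]
    exact (h.1 i).2.trans (sf_le_one hd i x)), x, h⟩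

theorem mkM_apply (hd : IsQuasimetric d) (x : X) (t : Idx X → ℝ) (h : Good d x t) (i : Idx X) :
    (mkM hd x t h).1 i = t i := rfl

section

variable [TopologicalSpace X] [T0Space X] (hd : IsQuasimetric d)
    (hb : ∀ U : Set X, IsOpen U ↔ ∀ x ∈ U, ∃ r > 0, ∀ y, d x y < r → y ∈ U)

include hd hb

theorem qq_eq {m : MM d} {x : X} (h : Good d x m.1) : qq d m = x :=
  good_unique hd hb (qq_spec d m) h

theorem qq_mk (x : X) (t : Idx X → ℝ) (h : Good d x t) : qq d (mkM hd x t h) = x :=
  qq_eq hd hb h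

theorem good_sf (x : X) : Good d x (fun i => sf d i x) :=
  ⟨fun i => ⟨sf_nonneg d i x, le_rfl⟩, fun _ hr => sf_self hd x hr⟩

theorem qq_surj : Function.Surjective (qq d) := fun x =>
  ⟨mkM hd x _ (good_sf hd hb x), qq_mk hd hb x _ _⟩

theorem qq_cont : Continuous (qq d) := by
  rw [continuous_def]
  intro U hU
  rw [Metric.isOpen_iff]
  intro m hm
  obtain ⟨r, hr, hrU⟩ := (hb U).1 hU _ hm
  have h1 := (qq_spec d m).2 r hr
  refine ⟨m.1 ⟨qq d m, r⟩, h1, ?_⟩
  intro m' hm'
  show qq d m' ∈ U
  apply hrU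
  have h2 : dist (m'.1 ⟨qq d m, r⟩) (m.1 ⟨qq d m, r⟩) ≤ dist m'.1 m.1 :=
    BoundedContinuousFunction.dist_coe_le_dist _
  have h3 : dist m'.1 m.1 < m.1 ⟨qq d m, r⟩ := hm'
  rw [Real.dist_eq] at h2
  have h4 := abs_lt.1 (lt_of_le_of_lt h2 h3)
  have h5 : 0 < m'.1 ⟨qq d m, r⟩ := by linarith [h4.1]
  have h6 := sf_pos (lt_of_lt_of_le h5 ((qq_spec d m').1 ⟨qq d m, r⟩).2)
  exact lt_of_lt_of_le h6 (min_le_left _ _)

theorem qq_open : IsOpenMap (qq d) := by
  intro V hV
  rw [hb]
  rintro x ⟨m, hm, rfl⟩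
  obtain ⟨ε, hε, hεV⟩ := Metric.isOpen_iff.1 hV m hm
  refine ⟨ε / 2, by linarith, ?_⟩
  intro x' hx'
  have hG : Good d x' (fun i => min (sf d i x') (max (m.1 i) (ε / 2))) := by
    constructor
    · intro i
      refine ⟨le_min (sf_nonneg d i x') ?_, min_le_left _ _⟩
      exact le_max_of_le_right (by linarith)
    · intro r hr
      exact lt_min (sf_self hd x' hr) (lt_max_of_lt_right (by linarith))
  refine ⟨mkM hd x' _ hG, hεV ?_, qq_mk hd hb x' _ _⟩
  have h1 : dist (mkM hd x' _ hG).1 m.1 ≤ ε / 2 := by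
    rw [BoundedContinuousFunction.dist_le (by linarith)]
    intro i
    rw [mkM_apply, Real.dist_eq, abs_le]
    have h2 := ((qq_spec d m).1 i)
    have h3 := sf_tri hd i (qq d m) x'
    constructor
    · have h4 : m.1 i - ε / 2 ≤ min (sf d i x') (max (m.1 i) (ε / 2)) :=
        le_min (by linarith [h2.2]) (le_max_of_le_left (by linarith))
      linarith
    · have h4 : min (sf d i x') (max (m.1 i) (ε / 2)) ≤ m.1 i + ε / 2 :=
        (min_le_right _ _).trans (max_le (by linarith) (by linarith [h2.1]))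
      linarith
  show dist (mkM hd x' _ hG).1 m.1 < ε
  linarith

end

/-- A continuous majorant vanishing at the base point. -/
theorem exists_majorant {A : Type u} [MetricSpace A] (a0 : A) (δ : A → ℝ)
    (h1 : ∀ a, δ a ≤ 1) (h0 : ∀ ε > 0, ∃ r > 0, ∀ a, dist a a0 < r → δ a < ε) :
    ∃ h : A → ℝ, Continuous h ∧ h a0 = 0 ∧ (∀ a, 0 ≤ h a) ∧ ∀ a, δ a ≤ h a := by
  choose r hr hr' using fun n : ℕ => h0 ((1 / 2 : ℝ) ^ n) (by positivity)
  have hsum : Summable (fun n : ℕ => (1 / 2 : ℝ) ^ n) := summable_geometric_two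
  let φ : ℕ → A → ℝ := fun n a => (1 / 2 : ℝ) ^ n * min 1 (dist a a0 / r n)
  have hφ0 : ∀ n a, 0 ≤ φ n a := fun n a =>
    mul_nonneg (by positivity) (le_min zero_le_one (div_nonneg dist_nonneg (hr n).le))
  have hφ1 : ∀ n a, φ n a ≤ (1 / 2 : ℝ) ^ n := fun n a => by
    have h2 : min 1 (dist a a0 / r n) ≤ 1 := min_le_left _ _
    have h3 : (0 : ℝ) ≤ (1 / 2 : ℝ) ^ n := by positivity
    calc φ n a ≤ (1 / 2 : ℝ) ^ n * 1 := mul_le_mul_of_nonneg_left h2 h3
      _ = (1 / 2 : ℝ) ^ n := mul_one _
  have hs : ∀ a, Summable (fun n => φ n a) := fun a =>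
    Summable.of_nonneg_of_le (fun n => hφ0 n a) (fun n => hφ1 n a) hsum
  refine ⟨fun a => 2 * ∑' n, φ n a, ?_, ?_, ?_, ?_⟩
  · apply Continuous.mul continuous_const
    apply continuous_tsum (fun n => ?_) hsum (fun n a => ?_)
    · exact continuous_const.mul (continuous_const.min
        ((continuous_id.dist continuous_const).div_const _))
    · rw [Real.norm_eq_abs, abs_of_nonneg (hφ0 n a)]
      exact hφ1 n a
  · have : ∀ n, φ n a0 = 0 := fun n => by
      show (1 / 2 : ℝ) ^ n * min 1 (dist a0 a0 / r n) = 0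
      rw [dist_self, zero_div, min_eq_right zero_le_one, mul_zero]
    simp [this]
  · intro a
    have h9 : 0 ≤ ∑' n, φ n a := tsum_nonneg (fun n => hφ0 n a)
    show 0 ≤ 2 * ∑' n, φ n a
    linarith
  · intro a
    show δ a ≤ 2 * ∑' n, φ n a
    by_cases hall : ∀ n, dist a a0 < r n
    · have h2 : δ a ≤ 0 := by
        apply le_of_forall_pos_lt_add
        intro ε hε
        obtain ⟨n, hn⟩ := exists_pow_lt_of_lt_one hε (by norm_num : (1 / 2 : ℝ) < 1)
        have := hr' n a (hall n)
        linarith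
      have h9 : 0 ≤ ∑' n, φ n a := tsum_nonneg (fun n => hφ0 n a)
      linarith
    · push Not at hall
      classical
      let n := Nat.find hall
      have hn : r n ≤ dist a a0 := Nat.find_spec hall
      have hterm : φ n a = (1 / 2 : ℝ) ^ n := by
        show (1 / 2 : ℝ) ^ n * min 1 (dist a a0 / r n) = _
        rw [min_eq_left, mul_one]
        rw [le_div_iff₀ (hr n), one_mul]
        exact hn
      have hge : (1 / 2 : ℝ) ^ n ≤ ∑' n, φ n a := by
        rw [← hterm]
        exact (hs a).le_tsum n (fun m _ => hφ0 m a)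
      have hδ : δ a ≤ 2 * (1 / 2 : ℝ) ^ n := by
        rcases Nat.eq_zero_or_pos n with h | h
        · rw [h]
          have := h1 a
          norm_num
          linarith
        · have h3 : dist a a0 < r (n - 1) := by
            have := Nat.find_min hall (m := n - 1) (by omega)
            push Not at this
            exact this
          have h4 := hr' (n - 1) a h3
          have h5 : (1 / 2 : ℝ) ^ (n - 1) = 2 * (1 / 2 : ℝ) ^ n := by
            obtain ⟨k, hk⟩ : ∃ k, n = k + 1 := ⟨n - 1, by omega⟩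
            rw [hk, Nat.add_sub_cancel, pow_succ]
            ring
          linarith
      linarith

section lift

variable [TopologicalSpace X] [T0Space X] (hd : IsQuasimetric d)
    (hb : ∀ U : Set X, IsOpen U ↔ ∀ x ∈ U, ∃ r > 0, ∀ y, d x y < r → y ∈ U)
    {A : Type u} [MetricSpace A]

/-- Lipschitz regularisation -/
noncomputable def TT (d : X → X → ℝ) (f : A → X) (i : Idx X) (a : A) : ℝ :=
  ⨅ b, (sf d i (f b) + dist a b)

theorem TT_bdd (f : A → X) (i : Idx X) (a : A) :
    BddBelow (Set.range fun b => sf d i (f b) + dist a b) :=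
  ⟨0, by rintro _ ⟨b, rfl⟩; exact add_nonneg (sf_nonneg d i _) dist_nonneg⟩

theorem TT_le (f : A → X) (i : Idx X) (a : A) : TT d f i a ≤ sf d i (f a) := by
  have h : TT d f i a ≤ sf d i (f a) + dist a a := ciInf_le (TT_bdd (d := d) f i a) a
  rwa [dist_self, add_zero] at h

theorem TT_nonneg (f : A → X) (i : Idx X) (a : A) : 0 ≤ TT d f i a := by
  have : Nonempty A := ⟨a⟩
  exact le_ciInf (fun b => add_nonneg (sf_nonneg d i _) dist_nonneg)

theorem TT_lip (f : A → X) (i : Idx X) (a a' : A) : TT d f i a ≤ TT d f i a' + dist a a' := by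
  have : Nonempty A := ⟨a⟩
  rw [← sub_le_iff_le_add]
  apply le_ciInf
  intro b
  have h := ciInf_le (TT_bdd (d := d) f i a) b
  have h2 := dist_triangle a a' b
  unfold TT
  linarith

include hd hb

theorem TT_pos (f : A → X) (hf : Continuous f) (a : A) {r : ℝ} (hr : 0 < r) :
    0 < TT d f ⟨f a, r⟩ a := by
  have : Nonempty A := ⟨a⟩
  have hm : 0 < min r 1 := lt_min hr one_pos
  have hopen : IsOpen {y | d (f a) y < min r 1 / 2} := by
    rw [hb]
    intro x hx
    have hx' : d (f a) x < min r 1 / 2 := hx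
    refine ⟨min r 1 / 2 - d (f a) x, by linarith, fun y hy => ?_⟩
    show d (f a) y < min r 1 / 2
    have := hd.tri (f a) x y
    linarith
  have hpre := hopen.preimage hf
  obtain ⟨η, hη, hball⟩ := Metric.isOpen_iff.1 hpre a (by
    show d (f a) (f a) < min r 1 / 2
    rw [hd.self]
    linarith)
  have hle : min (min r 1 / 2) η ≤ TT d f ⟨f a, r⟩ a := by
    apply le_ciInf
    intro b
    by_cases hab : dist a b < η
    · have h1 : d (f a) (f b) < min r 1 / 2 := hball (by rw [Metric.mem_ball, dist_comm]; exact hab)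
      have h2 : min r 1 - d (f a) (f b) ≤ sf d ⟨f a, r⟩ (f b) := le_max_right _ _
      have h3 := min_le_left (min r 1 / 2) η
      have h4 : 0 ≤ dist a b := dist_nonneg
      linarith
    · have h3 := min_le_right (min r 1 / 2) η
      have h4 := sf_nonneg d ⟨f a, r⟩ (f b)
      linarith
  exact lt_of_lt_of_le (lt_min (by linarith) hη) hle

theorem exists_lift (a0 : A) (x0 : X) (f : A → X) (hf : Continuous f) (hf0 : f a0 = x0) :
    ∃ g : A → MM d, Continuous g ∧ g a0 = mkM hd x0 _ (good_sf hd hb x0) ∧ f = qq d ∘ g := by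
  obtain ⟨h, hc, h0, hnn, hδ⟩ := exists_majorant a0 (fun a => min 1 (d x0 (f a)))
    (fun a => min_le_left _ _) (by
      intro ε hε
      have hopen : IsOpen {y | d x0 y < ε} := by
        rw [hb]
        intro x hx
        have hx' : d x0 x < ε := hx
        refine ⟨ε - d x0 x, by linarith, fun y hy => ?_⟩
        show d x0 y < ε
        have := hd.tri x0 x y
        linarith
      obtain ⟨η, hη, hball⟩ := Metric.isOpen_iff.1 (hopen.preimage hf) a0 (by
        show d x0 (f a0) < ε
        rw [hf0, hd.self]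
        exact hε)
      refine ⟨η, hη, fun a ha => ?_⟩
      exact lt_of_le_of_lt (min_le_right _ _) (hball ha))
  have hG : ∀ a, Good d (f a) (fun i => max (TT d f i a) (sf d i x0 - h a)) := by
    intro a
    constructor
    · intro i
      refine ⟨le_max_of_le_left (TT_nonneg f i a), max_le (TT_le f i a) ?_⟩
      have h1 := hδ a
      rcases le_total 1 (d x0 (f a)) with h2 | h2
      · rw [min_eq_left h2] at h1
        have h3 := sf_le_one hd i x0
        have h4 := sf_nonneg d i (f a)
        linarith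
      · rw [min_eq_right h2] at h1
        have h3 := sf_tri hd i x0 (f a)
        linarith
    · intro r hr
      exact lt_max_of_lt_left (TT_pos hd hb f hf a hr)
  refine ⟨fun a => mkM hd (f a) _ (hG a), ?_, ?_, ?_⟩
  · rw [continuous_iff_continuousAt]
    intro a
    rw [ContinuousAt, tendsto_iff_dist_tendsto_zero]
    have hle : ∀ a', dist (mkM hd (f a') _ (hG a')) (mkM hd (f a) _ (hG a)) ≤
        dist a' a + |h a' - h a| := by
      intro a'
      show dist (mkM hd (f a') _ (hG a')).1 (mkM hd (f a) _ (hG a)).1 ≤ _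
      rw [BoundedContinuousFunction.dist_le (by positivity)]
      intro i
      rw [mkM_apply, mkM_apply, Real.dist_eq]
      refine (abs_max_sub_max_le_max _ _ _ _).trans (max_le ?_ ?_)
      · have e1 := TT_lip (d := d) f i a a'
        have e2 := TT_lip (d := d) f i a' a
        rw [dist_comm] at e1
        have e3 : |TT d f i a' - TT d f i a| ≤ dist a' a := abs_le.2 ⟨by linarith, by linarith⟩
        have e4 := abs_nonneg (h a' - h a)
        linarith
      · have e5 : sf d i x0 - h a' - (sf d i x0 - h a) = -(h a' - h a) := by ring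
        rw [e5, abs_neg]
        have e6 : 0 ≤ dist a' a := dist_nonneg
        linarith
    have hlim : Filter.Tendsto (fun a' => dist a' a + |h a' - h a|) (nhds a) (nhds 0) := by
      have hcont : Continuous (fun a' => dist a' a + |h a' - h a|) := by fun_prop
      have := hcont.tendsto a
      simpa using this
    exact squeeze_zero (fun _ => dist_nonneg) hle hlim
  · apply Subtype.ext
    ext i
    rw [mkM_apply, mkM_apply, h0, sub_zero]
    apply max_eq_right
    have := TT_le (d := d) f i a0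
    rwa [hf0] at this
  · funext a
    exact (qq_mk hd hb (f a) _ (hG a)).symm

theorem exists_homotopy (a0 : A) (m0 : MM d) (f g : A → MM d) (hf : Continuous f)
    (hg : Continuous g) (hf0 : f a0 = m0) (hg0 : g a0 = m0) (hfg : qq d ∘ f = qq d ∘ g) :
    ∃ F : A × unitInterval → MM d, Continuous F ∧ (∀ a, F (a, 0) = f a) ∧ (∀ a, F (a, 1) = g a) ∧
      (∀ s, F (a0, s) = m0) ∧ ∀ a s s', qq d (F (a, s)) = qq d (F (a, s')) := by
  have hG : ∀ (a : A) (s : unitInterval),
      Good d (qq d (f a)) ((1 - (s : ℝ)) • (f a).1 + (s : ℝ) • (g a).1 : Idx X →ᵇ ℝ) := by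
    intro a s
    have h1 := qq_spec d (f a)
    have h2 := qq_spec d (g a)
    have h3 : qq d (f a) = qq d (g a) := congrFun hfg a
    rw [← h3] at h2
    have hs0 : 0 ≤ (s : ℝ) := s.2.1
    have hs1 : (s : ℝ) ≤ 1 := s.2.2
    constructor
    · intro i
      have e1 := h1.1 i
      have e2 := h2.1 i
      rw [BoundedContinuousFunction.add_apply, BoundedContinuousFunction.smul_apply,
        BoundedContinuousFunction.smul_apply, smul_eq_mul, smul_eq_mul]
      constructor
      · exact add_nonneg (mul_nonneg (by linarith) e1.1) (mul_nonneg hs0 e2.1)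
      · nlinarith [e1.2, e2.2]
    · intro r hr
      have e1 := h1.2 r hr
      have e2 := h2.2 r hr
      rw [BoundedContinuousFunction.add_apply, BoundedContinuousFunction.smul_apply,
        BoundedContinuousFunction.smul_apply, smul_eq_mul, smul_eq_mul]
      rcases eq_or_lt_of_le hs0 with h | h
      · rw [← h]
        simpa using e1
      · exact add_pos_of_nonneg_of_pos (mul_nonneg (by linarith) e1.le) (mul_pos h e2)
  refine ⟨fun p => ⟨(1 - (p.2 : ℝ)) • (f p.1).1 + (p.2 : ℝ) • (g p.1).1, _, hG p.1 p.2⟩,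
    ?_, ?_, ?_, ?_, ?_⟩
  · apply Continuous.subtype_mk
    have hf' : Continuous (fun a => (f a).1) := continuous_subtype_val.comp hf
    have hg' : Continuous (fun a => (g a).1) := continuous_subtype_val.comp hg
    have hs : Continuous (fun p : A × unitInterval => (p.2 : ℝ)) :=
      continuous_subtype_val.comp continuous_snd
    exact ((continuous_const.sub hs).smul (hf'.comp continuous_fst)).add
      (hs.smul (hg'.comp continuous_fst))
  · intro a
    apply Subtype.ext
    simp
  · intro a
    apply Subtype.ext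
    simp
  · intro s
    apply Subtype.ext
    show (1 - (s : ℝ)) • (f a0).1 + (s : ℝ) • (g a0).1 = m0.1
    rw [hf0, hg0, ← add_smul]
    simp
  · intro a s s'
    have e1 := qq_eq hd hb (m := ⟨(1 - (s : ℝ)) • (f a).1 + (s : ℝ) • (g a).1, _, hG a s⟩) (hG a s)
    have e2 := qq_eq hd hb (m := ⟨(1 - (s' : ℝ)) • (f a).1 + (s' : ℝ) • (g a).1, _, hG a s'⟩)
      (hG a s')
    exact e1.trans e2.symm

end lift

/-- **(b)** every quasimetrizable T₀ based space has a metric analog -/
theorem partB (X : Type u) [TopologicalSpace X] [T0Space X] (x0 : X) (h : Quasimetrizable X) :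
    HasMetricAnalog X x0 := by
  obtain ⟨d, hd, hbas⟩ := h
  have hb := isOpen_iff hd hbas
  exact ⟨MM d, inferInstance, mkM hd x0 _ (good_sf hd hb x0), qq d,
    { quot := (qq_open hd hb).isQuotientMap (qq_cont hd hb) (qq_surj hd hb)
      opn := qq_open hd hb
      base := qq_mk hd hb x0 _ _
      lift := fun A _ a0 f hf hf0 => exists_lift hd hb a0 x0 f hf hf0
      homotopy := fun A _ a0 f g hf hg hf0 hg0 hfg =>
        exists_homotopy hd hb a0 _ f g hf hg hf0 hg0 hfg }⟩

end X126.MA
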