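import Mathlib.SetTheory.Cardinal.Aleph
import Mathlib.Analysis.Normed.Lp.lpSpace
import Mathlib.Analysis.SpecificLimits.Basic
import Mathlib.Analysis.Normed.Group.FunctionSeries
import Mathlib.Topology.PartitionOfUnity
import Mathlib.Topology.EMetricSpace.Paracompact
import Mathlib.Topology.MetricSpace.Basic
import Pool.Agent.X126.MA.Defs

/-!
# `ω₁` with the topology of final segments has a metric analog but is not quasimetrizable
-/

namespace X126.MA

open Set

/-- the first uncountable ordinal, as a type -/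
def W1 : Type := (Cardinal.aleph 1).ord.ToType

noncomputable instance : LinearOrder W1 :=
  inferInstanceAs (LinearOrder (Cardinal.aleph 1).ord.ToType)

instance : WellFoundedLT W1 :=
  inferInstanceAs (WellFoundedLT (Cardinal.aleph 1).ord.ToType)

theorem mk_W1 : Cardinal.mk W1 = Cardinal.aleph 1 := Cardinal.mk_ord_toType _

theorem countable_Iio (x : W1) : (Iio x).Countable := by
  rw [Cardinal.countable_iff_lt_aleph_one]
  have h := Cardinal.mk_Iio_lt (α := (Cardinal.aleph 1).ord.ToType) x (by simp)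
  rw [Cardinal.mk_ord_toType] at h
  exact h

theorem not_countable : ¬ (univ : Set W1).Countable := by
  rw [Cardinal.countable_iff_lt_aleph_one, Cardinal.mk_univ, mk_W1]
  exact lt_irrefl _

theorem exists_bound (S : Set W1) (hS : S.Countable) : ∃ x : W1, ∀ s ∈ S, s < x := by
  by_contra h
  push Not at h
  apply not_countable
  have h1 : (univ : Set W1) ⊆ ⋃ s ∈ S, Iic s := by
    intro x _
    obtain ⟨s, hs, hx⟩ := h x
    simp only [mem_iUnion]
    exact ⟨s, hs, hx⟩
  refine Countable.mono h1 (hS.biUnion (fun s _ => ?_))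
  have h2 : Iic s = insert s (Iio s) := by
    rw [Iio_insert]
  rw [h2]
  exact (countable_Iio s).insert s

/-- topology of final segments -/
instance topW1 : TopologicalSpace W1 where
  IsOpen U := ∀ x ∈ U, (∃ α, α < x ∧ Ioi α ⊆ U) ∨ U = univ
  isOpen_univ := fun _ _ => Or.inr rfl
  isOpen_inter := by
    intro U V hU hV x hx
    rcases hU x hx.1 with ⟨α, hα, hαU⟩ | h
    · rcases hV x hx.2 with ⟨β, hβ, hβV⟩ | h'
      · exact Or.inl ⟨max α β, max_lt hα hβ, fun y hy =>
          ⟨hαU (show α < y from lt_of_le_of_lt (le_max_left α β) hy),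
            hβV (show β < y from lt_of_le_of_lt (le_max_right α β) hy)⟩⟩
      · rw [h', inter_univ]
        exact Or.inl ⟨α, hα, hαU⟩
    · rw [h, univ_inter]
      exact hV x hx.2
  isOpen_sUnion := by
    intro S hS x hx
    obtain ⟨U, hU, hxU⟩ := hx
    rcases hS U hU x hxU with ⟨α, hα, hαU⟩ | h
    · exact Or.inl ⟨α, hα, fun y hy => ⟨U, hU, hαU hy⟩⟩
    · refine Or.inr (eq_univ_of_forall (fun y => ⟨U, hU, ?_⟩))
      rw [h]
      trivial

theorem isOpen_W1 (U : Set W1) : IsOpen U ↔ ∀ x ∈ U, (∃ α, α < x ∧ Ioi α ⊆ U) ∨ U = univ :=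
  Iff.rfl

theorem isOpen_Ioi' (α : W1) : IsOpen (Ioi α) := fun _ hx => Or.inl ⟨α, hx, subset_rfl⟩

instance : T0Space W1 := by
  constructor
  intro x y h
  rw [inseparable_iff_forall_isOpen] at h
  by_contra hne
  rcases lt_or_gt_of_ne hne with hlt | hlt
  · exact lt_irrefl x ((h (Ioi x) (isOpen_Ioi' x)).2 hlt)
  · exact lt_irrefl y ((h (Ioi y) (isOpen_Ioi' y)).1 hlt)

/-- strict supremum -/
theorem exists_ssup (S : Set W1) (hS : S.Countable) :
    ∃ l : W1, (∀ s ∈ S, s < l) ∧ ∀ α < l, ∃ s ∈ S, α ≤ s := by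
  have hne : {x : W1 | ∀ s ∈ S, s < x}.Nonempty := exists_bound S hS
  have wf : WellFounded ((· < ·) : W1 → W1 → Prop) := wellFounded_lt
  refine ⟨wf.min _ hne, wf.min_mem _ hne, ?_⟩
  intro α hα
  by_contra h
  push Not at h
  exact wf.not_lt_min {x : W1 | ∀ s ∈ S, s < x} (x := α) h hα

/-- not quasimetrizable -/
theorem not_quasi : ¬ Quasimetrizable W1 := by
  rintro ⟨d, hd, hbas⟩
  have hb := isOpen_iff hd hbas
  have hball : ∀ (x : W1) (r : ℝ), IsOpen {y | d x y < r} := by
    intro x r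
    rw [hb]
    intro y hy
    have hy' : d x y < r := hy
    refine ⟨r - d x y, by linarith, fun z hz => ?_⟩
    show d x z < r
    have := hd.tri x y z
    linarith
  have hP : ∃ x : W1, ∀ (n : ℕ) (δ : W1), ∃ α, δ < α ∧ d α x < 1 / ((n : ℝ) + 1) := by
    by_contra hcon
    push Not at hcon
    choose N δ hδ using hcon
    have hn : ∃ n : ℕ, ∀ b : W1, ∃ x, b < x ∧ N x = n := by
      by_contra h
      push Not at h
      choose b hbn using h
      obtain ⟨B, hB⟩ := exists_bound (range b) (countable_range b)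
      exact hbn (N B) B (hB _ ⟨N B, rfl⟩) rfl
    obtain ⟨n, hn⟩ := hn
    choose g hg1 hg2 using hn
    obtain ⟨z0⟩ : Nonempty W1 := by
      by_contra h
      rw [not_nonempty_iff] at h
      exact not_countable (Set.countable_univ)
    let x : ℕ → W1 := fun k => Nat.rec (g z0) (fun _ y => g (max y (δ y))) k
    have hxN : ∀ k, N (x k) = n := by
      intro k
      cases k with
      | zero => exact hg2 _
      | succ k => exact hg2 _
    have hx1 : ∀ k, x k < x (k + 1) := fun k =>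
      lt_of_le_of_lt (le_max_left _ _) (hg1 (max (x k) (δ (x k))))
    have hx2 : ∀ k, δ (x k) < x (k + 1) := fun k =>
      lt_of_le_of_lt (le_max_right _ _) (hg1 (max (x k) (δ (x k))))
    obtain ⟨l, hl1, hl2⟩ := exists_ssup (range x) (countable_range x)
    have hfar : ∀ k, 1 / ((n : ℝ) + 1) ≤ d l (x k) := by
      intro k
      have := hδ (x k) l ((hx2 k).trans (hl1 _ ⟨k + 1, rfl⟩))
      rwa [hxN k] at this
    have hpos : (0 : ℝ) < 1 / ((n : ℝ) + 1) := by positivity
    rcases hball l (1 / ((n : ℝ) + 1)) l (by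
      show d l l < _
      rw [hd.self]
      exact hpos) with ⟨α, hα, hsub⟩ | huniv
    · obtain ⟨s, ⟨k, rfl⟩, hs⟩ := hl2 α hα
      have h1 : x (k + 1) ∈ {y | d l y < 1 / ((n : ℝ) + 1)} :=
        hsub (lt_of_le_of_lt hs (hx1 k))
      exact absurd (hfar (k + 1)) (not_le.2 h1)
    · have h1 : x 0 ∈ {y | d l y < 1 / ((n : ℝ) + 1)} := by
        rw [huniv]
        trivial
      exact absurd (hfar 0) (not_le.2 h1)
  obtain ⟨x, hx⟩ := hP
  choose f hf1 hf2 using hx
  let a : ℕ → W1 := fun k => Nat.rec (f 0 x) (fun k y => f (k + 1) y) k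
  have ha1 : ∀ k, a k < a (k + 1) := fun k => hf1 (k + 1) (a k)
  have ha2 : ∀ k, d (a k) x < 1 / ((k : ℝ) + 1) := by
    intro k
    cases k with
    | zero => exact hf2 0 x
    | succ k => exact hf2 (k + 1) (a k)
  have hmono : StrictMono a := strictMono_nat_of_lt_succ ha1
  have hxa : x < a 0 := hf1 0 x
  obtain ⟨l, hl1, hl2⟩ := exists_ssup (range a) (countable_range a)
  have hxl : x < l := hxa.trans (hl1 _ ⟨0, rfl⟩)
  obtain ⟨r, hr, hrU⟩ := (hb (Ioi x)).1 (isOpen_Ioi' x) l hxl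
  have hev : ∃ k0, ∀ k, k0 ≤ k → d l (a k) < r / 2 := by
    rcases hball l (r / 2) l (by
      show d l l < _
      rw [hd.self]
      linarith) with ⟨α, hα, hsub⟩ | huniv
    · obtain ⟨s, ⟨k, rfl⟩, hs⟩ := hl2 α hα
      refine ⟨k + 1, fun m hm => ?_⟩
      exact hsub (lt_of_le_of_lt hs (hmono (by omega)))
    · refine ⟨0, fun m _ => ?_⟩
      have h1 : a m ∈ {y | d l y < r / 2} := by
        rw [huniv]
        trivial
      exact h1
  obtain ⟨k0, hk0⟩ := hev
  obtain ⟨k1, hk1⟩ := exists_nat_one_div_lt (show 0 < r / 2 by linarith)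
  have e1 := hk0 (max k0 k1) (le_max_left _ _)
  have e2 := ha2 (max k0 k1)
  have e3 : 1 / (((max k0 k1 : ℕ) : ℝ) + 1) ≤ 1 / ((k1 : ℝ) + 1) := by
    apply one_div_le_one_div_of_le (by positivity)
    have : (k1 : ℝ) ≤ ((max k0 k1 : ℕ) : ℝ) := by exact_mod_cast le_max_right _ _
    linarith
  have e4 := hd.tri l (a (max k0 k1)) x
  exact lt_irrefl x (hrU x (by linarith))

/-! ### The metric analog -/

/-- `ℓ¹(ω₁)` -/
abbrev L1 : Type := lp (fun _ : W1 => ℝ) 1

/-- coordinates -/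
noncomputable def ev (β : W1) : L1 →L[ℝ] ℝ :=
  LinearMap.mkContinuous
    { toFun := fun f => f β
      map_add' := fun _ _ => rfl
      map_smul' := fun _ _ => rfl } 1 (fun f => by
        rw [one_mul]
        exact lp.norm_apply_le_norm (by norm_num) f β)

theorem ev_apply (β : W1) (f : L1) : ev β f = f β := rfl

theorem abs_ev_le (β : W1) (f : L1) : |f β| ≤ ‖f‖ := lp.norm_apply_le_norm (by norm_num) f β

/-- the positive cone of `ℓ¹(ω₁)` -/
def MA : Type := {t : L1 // ∀ β, 0 ≤ t β}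

noncomputable instance : MetricSpace MA := inferInstanceAs (MetricSpace {t : L1 // ∀ β, 0 ≤ t β})

theorem countable_supp (t : L1) : {β | 0 < t β}.Countable := by
  have h := lp.memℓp t
  rw [memℓp_gen_iff (by norm_num)] at h
  have h2 : Summable (fun β => t β) := by
    apply Summable.of_norm
    simpa using h
  exact h2.countable_support.mono (fun β hβ => ne_of_gt hβ)

theorem exists_q (t : L1) : ∃ l : W1, (∀ β, 0 < t β → β < l) ∧ ∀ α < l, ∃ β, α ≤ β ∧ 0 < t β := by
  obtain ⟨l, h1, h2⟩ := exists_ssup {β | 0 < t β} (countable_supp t)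
  exact ⟨l, h1, fun α hα => by
    obtain ⟨β, hβ, h⟩ := h2 α hα
    exact ⟨β, h, hβ⟩⟩

/-- the projection -/
noncomputable def qA (t : MA) : W1 := (exists_q t.1).choose

theorem qA_lt {t : MA} {β : W1} (h : 0 < t.1 β) : β < qA t := (exists_q t.1).choose_spec.1 β h

theorem lt_qA {t : MA} {α : W1} (h : α < qA t) : ∃ β, α ≤ β ∧ 0 < t.1 β :=
  (exists_q t.1).choose_spec.2 α h

theorem qA_eq {t : MA} {x : W1} (h1 : ∀ β, 0 < t.1 β → β < x) (h2 : ∀ α < x, ∃ β, α ≤ β ∧ 0 < t.1 β) :
    qA t = x := by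
  apply le_antisymm
  · by_contra h
    push Not at h
    obtain ⟨β, hβ, hβ2⟩ := lt_qA h
    exact absurd (h1 β hβ2) (not_lt.2 hβ)
  · by_contra h
    push Not at h
    obtain ⟨β, hβ, hβ2⟩ := h2 _ h
    exact absurd (qA_lt hβ2) (not_lt.2 hβ)

theorem exists_w (x : W1) : ∃ w : L1, (∀ β, 0 < w β ↔ β < x) ∧ (∀ β, 0 ≤ w β) ∧ ‖w‖ ≤ 1 := by
  classical
  haveI : Countable (Iio x) := (countable_Iio x).to_subtype
  obtain ⟨e, he⟩ := exists_injective_nat (Iio x)
  let f : W1 → ℝ := fun β => if h : β < x then (1 / 2 : ℝ) ^ (e ⟨β, h⟩) else 0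
  have hf0 : ∀ β, 0 ≤ f β := by
    intro β
    show 0 ≤ dite _ _ _
    split_ifs
    · positivity
    · exact le_rfl
  have hfpos : ∀ β, 0 < f β ↔ β < x := by
    intro β
    constructor
    · intro h
      by_contra h2
      have : f β = 0 := dif_neg h2
      linarith
    · intro h
      have : f β = (1 / 2 : ℝ) ^ (e ⟨β, h⟩) := dif_pos h
      rw [this]
      positivity
  have hsum : Summable f := by
    rw [← Function.Injective.summable_iff (Subtype.val_injective (p := fun β => β ∈ Iio x))]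
    · have h2 : (f ∘ (Subtype.val : Iio x → W1)) = fun b => (1 / 2 : ℝ) ^ (e b) := by
        funext b
        exact dif_pos (show b.1 < x from b.2)
      rw [h2]
      exact summable_geometric_two.comp_injective he
    · intro β hβ
      have : ¬ β < x := fun h => hβ ⟨⟨β, h⟩, rfl⟩
      exact dif_neg this
  have hmem : Memℓp f 1 := by
    rw [memℓp_gen_iff (by norm_num)]
    have h3 : (fun β => ‖f β‖ ^ (ENNReal.toReal 1)) = f := by
      funext β
      rw [Real.norm_eq_abs, abs_of_nonneg (hf0 β)]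
      simp
    rw [h3]
    exact hsum
  let w0 : L1 := ⟨f, hmem⟩
  have hw0 : ∀ β, w0 β = f β := fun _ => rfl
  have hc : 0 < (1 + ‖w0‖)⁻¹ := by positivity
  refine ⟨(1 + ‖w0‖)⁻¹ • w0, ?_, ?_, ?_⟩
  · intro β
    have e1 : ((1 + ‖w0‖)⁻¹ • w0 : L1) β = (1 + ‖w0‖)⁻¹ * f β := rfl
    rw [e1, ← hfpos β]
    constructor
    · intro h
      exact (pos_iff_pos_of_mul_pos h).1 hc
    · intro h
      exact mul_pos hc h
  · intro β
    exact mul_nonneg hc.le (hf0 β)
  · rw [norm_smul, Real.norm_eq_abs, abs_of_pos hc, inv_mul_le_iff₀ (by positivity)]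
    linarith

/-- weight with support `Iio x` -/
noncomputable def ww (x : W1) : L1 := (exists_w x).choose

theorem ww_pos (x β : W1) : 0 < ww x β ↔ β < x := (exists_w x).choose_spec.1 β

theorem ww_nonneg (x β : W1) : 0 ≤ ww x β := (exists_w x).choose_spec.2.1 β

theorem ww_norm (x : W1) : ‖ww x‖ ≤ 1 := (exists_w x).choose_spec.2.2

theorem qA_surj : Function.Surjective qA := by
  intro x
  refine ⟨⟨ww x, ww_nonneg x⟩, qA_eq (fun β h => (ww_pos x β).1 h) (fun α hα => ?_)⟩
  exact ⟨α, le_rfl, (ww_pos x α).2 hα⟩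

theorem qA_cont : Continuous qA := by
  rw [continuous_def]
  intro U hU
  rw [Metric.isOpen_iff]
  intro t ht
  rcases hU (qA t) ht with ⟨α, hα, hsub⟩ | h
  · obtain ⟨β, hβ, hβ2⟩ := lt_qA hα
    refine ⟨t.1 β, hβ2, fun t' ht' => hsub ?_⟩
    have h1 : ‖t'.1 - t.1‖ < t.1 β := by
      rw [← dist_eq_norm]
      exact ht'
    have h2 := abs_ev_le β (t'.1 - t.1)
    have h3 : (t'.1 - t.1 : L1) β = t'.1 β - t.1 β := rfl
    rw [h3] at h2
    have h4 := abs_lt.1 (lt_of_le_of_lt h2 h1)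
    have h5 : 0 < t'.1 β := by linarith [h4.1]
    exact lt_of_le_of_lt hβ (qA_lt h5)
  · refine ⟨1, one_pos, fun t' _ => ?_⟩
    rw [h]
    trivial

theorem qA_open : IsOpenMap qA := by
  classical
  intro V hV x hx
  obtain ⟨t, ht, rfl⟩ := hx
  obtain ⟨ε, hε, hεV⟩ := Metric.isOpen_iff.1 hV t ht
  have hs := lp.hasSum_single (p := 1) (E := fun _ : W1 => ℝ) (by norm_num) t.1
  have hs2 := (Metric.tendsto_nhds.1 hs) (ε / 2) (by linarith)
  obtain ⟨F, hF⟩ := hs2.exists
  -- truncated element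
  let τ : L1 := ∑ β ∈ F, lp.single 1 β (t.1 β)
  have hτ : ∀ β, τ β = if β ∈ F then t.1 β else 0 := by
    intro β
    show (∑ β ∈ F, lp.single 1 β (t.1 β) : L1) β = _
    simp only [lp.coeFn_sum, Finset.sum_apply, lp.coeFn_single, Finset.sum_pi_single]
  have hτd : dist τ t.1 < ε / 2 := hF
  have hτ0 : ∀ β, 0 ≤ τ β := by
    intro β
    rw [hτ]
    split_ifs
    · exact t.2 β
    · exact le_rfl
  have key : ∀ x', (∀ β ∈ F, 0 < t.1 β → β < x') → x' ∈ qA '' V := by
    intro x' hx'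
    have hval : ∀ β, (τ + (ε / 4) • ww x' : L1) β = τ β + (ε / 4) * ww x' β := fun _ => rfl
    have h0 : ∀ β, 0 ≤ (τ + (ε / 4) • ww x' : L1) β := by
      intro β
      rw [hval]
      exact add_nonneg (hτ0 β) (mul_nonneg (by linarith) (ww_nonneg x' β))
    refine ⟨⟨τ + (ε / 4) • ww x', h0⟩, hεV ?_, ?_⟩
    · show dist (τ + (ε / 4) • ww x') t.1 < ε
      have h1 : dist (τ + (ε / 4) • ww x') τ ≤ ε / 4 := by
        rw [dist_eq_norm, add_sub_cancel_left, norm_smul, Real.norm_eq_abs,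
          abs_of_nonneg (by linarith)]
        have := ww_norm x'
        nlinarith
      have h2 := dist_triangle (τ + (ε / 4) • ww x') τ t.1
      linarith
    · apply qA_eq
      · intro β hβ
        have hβ' : 0 < τ β + (ε / 4) * ww x' β := hβ
        by_cases h1 : 0 < τ β
        · rw [hτ] at h1
          split_ifs at h1 with h2
          · exact hx' β h2 h1
          · exact absurd h1 (lt_irrefl _)
        · rw [← ww_pos x' β]
          by_contra h2
          have h3 := ww_nonneg x' β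
          have h4 : ww x' β = 0 := le_antisymm (not_lt.1 h2) h3
          rw [h4, mul_zero, add_zero] at hβ'
          exact h1 hβ'
      · intro α hα
        refine ⟨α, le_rfl, ?_⟩
        show 0 < τ α + (ε / 4) * ww x' α
        exact add_pos_of_nonneg_of_pos (hτ0 α) (mul_pos (by linarith) ((ww_pos x' α).2 hα))
  by_cases hP : (F.filter (fun β => 0 < t.1 β)).Nonempty
  · left
    refine ⟨(F.filter (fun β => 0 < t.1 β)).max' hP, ?_, ?_⟩
    · exact qA_lt (Finset.mem_filter.1 (Finset.max'_mem _ hP)).2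
    · intro x' hx'
      apply key
      intro β hβ hβ2
      exact lt_of_le_of_lt (Finset.le_max' _ β (Finset.mem_filter.2 ⟨hβ, hβ2⟩)) hx'
  · right
    apply eq_univ_of_forall
    intro x'
    apply key
    intro β hβ hβ2
    exact absurd ⟨β, Finset.mem_filter.2 ⟨hβ, hβ2⟩⟩ hP

/-! ### Lifting -/

section lift

variable {A : Type} [MetricSpace A]

/-- minimum of `f` on the ball of radius `r` about `c` -/
theorem exists_mu (f : A → W1) (r : ℝ) (hr : 0 < r) (c : A) :
    ∃ m : W1, (∀ a, dist a c < r → m ≤ f a) ∧ ∃ a, dist a c < r ∧ f a = m := by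
  have hne : (f '' Metric.ball c r).Nonempty := ⟨f c, c, Metric.mem_ball_self hr, rfl⟩
  have wf : WellFounded ((· < ·) : W1 → W1 → Prop) := wellFounded_lt
  obtain ⟨a, ha, hfa⟩ := wf.min_mem _ hne
  refine ⟨wf.min _ hne, fun b hb => ?_, a, ha, hfa⟩
  by_contra h
  push Not at h
  exact wf.not_lt_min (f '' Metric.ball c r) (x := f b) ⟨b, hb, rfl⟩ h

/-- one layer -/
theorem exists_layer (f : A → W1) (r : ℝ) (hr : 0 < r) :
    ∃ T : A → L1, Continuous T ∧ (∀ a, ‖T a‖ ≤ 1) ∧ (∀ a β, 0 ≤ T a β) ∧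
      (∀ a β, 0 < T a β → β < f a) ∧
      (∀ a β, (∀ b, dist b a < 2 * r → β < f b) → 0 < T a β) := by
  choose μ hμ1 hμ2 using exists_mu f r hr
  obtain ⟨φ, hφ⟩ := PartitionOfUnity.exists_isSubordinate (X := A) (s := univ) isClosed_univ
    (fun c : A => Metric.ball c r) (fun c => Metric.isOpen_ball)
    (fun a _ => mem_iUnion.2 ⟨a, Metric.mem_ball_self hr⟩)
  have hsub : ∀ c a, 0 < φ c a → dist a c < r := by
    intro c a h
    exact hφ c (subset_closure (ne_of_gt h))
  have hfin : ∀ a, ∑ᶠ c, φ c a • ww (μ c) = ∑ c ∈ φ.finsupport a, φ c a • ww (μ c) := fun a =>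
    (φ.sum_finsupport_smul_eq_finsum (x₀ := a) (fun c _ => ww (μ c))).symm
  have hcoord : ∀ a β, (∑ᶠ c, φ c a • ww (μ c) : L1) β =
      ∑ c ∈ φ.finsupport a, φ c a * ww (μ c) β := by
    intro a β
    rw [hfin, ← ev_apply, map_sum]
    rfl
  refine ⟨fun a => ∑ᶠ c, φ c a • ww (μ c), ?_, ?_, ?_, ?_, ?_⟩
  · exact φ.continuous_finsum_smul (g := fun c _ => ww (μ c)) (fun c x _ => continuousAt_const)
  · intro a
    show ‖∑ᶠ c, φ c a • ww (μ c)‖ ≤ 1
    rw [hfin]
    refine (norm_sum_le _ _).trans ?_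
    calc ∑ c ∈ φ.finsupport a, ‖φ c a • ww (μ c)‖ ≤ ∑ c ∈ φ.finsupport a, φ c a := by
          apply Finset.sum_le_sum
          intro c _
          rw [norm_smul, Real.norm_eq_abs, abs_of_nonneg (φ.nonneg c a)]
          have h1 := ww_norm (μ c)
          have h2 := φ.nonneg c a
          nlinarith
      _ = 1 := φ.sum_finsupport (mem_univ a)
  · intro a β
    show 0 ≤ (∑ᶠ c, φ c a • ww (μ c) : L1) β
    rw [hcoord]
    exact Finset.sum_nonneg (fun c _ => mul_nonneg (φ.nonneg c a) (ww_nonneg _ _))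
  · intro a β h
    have h' : 0 < (∑ᶠ c, φ c a • ww (μ c) : L1) β := h
    rw [hcoord] at h'
    obtain ⟨c, _, hc⟩ := Finset.exists_lt_of_sum_lt (f := fun _ => (0 : ℝ)) (by simpa using h')
    have h1 : 0 < φ c a := by
      rcases eq_or_lt_of_le (φ.nonneg c a) with h2 | h2
      · rw [← h2, zero_mul] at hc
        exact absurd hc (lt_irrefl _)
      · exact h2
    have h2 : 0 < ww (μ c) β := (pos_iff_pos_of_mul_pos hc).1 h1
    exact lt_of_lt_of_le ((ww_pos _ _).1 h2) (hμ1 c a (hsub c a h1))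
  · intro a β h
    show 0 < (∑ᶠ c, φ c a • ww (μ c) : L1) β
    rw [hcoord]
    obtain ⟨c, hc⟩ := φ.exists_pos (mem_univ a)
    have hmem : c ∈ φ.finsupport a := by
      rw [φ.mem_finsupport]
      exact ne_of_gt hc
    apply Finset.sum_pos'
    · intro c _
      exact mul_nonneg (φ.nonneg c a) (ww_nonneg _ _)
    · refine ⟨c, hmem, mul_pos hc ((ww_pos _ _).2 ?_)⟩
      obtain ⟨b, hb1, hb2⟩ := hμ2 c
      rw [← hb2]
      apply h
      have h1 := hsub c a hc
      have h2 := dist_triangle b c a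
      rw [dist_comm c a] at h2
      linarith

theorem exists_liftA (f : A → W1) (hf : Continuous f) :
    ∃ g : A → MA, Continuous g ∧ f = qA ∘ g := by
  have hr : ∀ n : ℕ, (0 : ℝ) < (1 / 2 : ℝ) ^ n := fun n => by positivity
  choose T hT1 hT2 hT3 hT4 hT5 using fun n : ℕ => exists_layer f ((1 / 2 : ℝ) ^ n) (hr n)
  have hbd : ∀ n a, ‖((1 / 2 : ℝ) ^ n) • T n a‖ ≤ (1 / 2 : ℝ) ^ n := by
    intro n a
    rw [norm_smul, Real.norm_eq_abs, abs_of_pos (hr n)]
    have h1 := hT2 n a
    have h2 := hr n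
    nlinarith
  have hsum : ∀ a, Summable (fun n => ((1 / 2 : ℝ) ^ n) • T n a) := fun a =>
    Summable.of_norm_bounded summable_geometric_two (fun n => hbd n a)
  have hcoord : ∀ a β, (∑' n, ((1 / 2 : ℝ) ^ n) • T n a : L1) β =
      ∑' n, (1 / 2 : ℝ) ^ n * T n a β := by
    intro a β
    rw [← ev_apply, (ev β).map_tsum (hsum a)]
    rfl
  have hsc : ∀ a β, Summable (fun n => (1 / 2 : ℝ) ^ n * T n a β) := fun a β =>
    (hsum a).mapL (ev β)
  have hnn : ∀ a β n, 0 ≤ (1 / 2 : ℝ) ^ n * T n a β := fun a β n =>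
    mul_nonneg (hr n).le (hT3 n a β)
  have h0 : ∀ a β, 0 ≤ (∑' n, ((1 / 2 : ℝ) ^ n) • T n a : L1) β := by
    intro a β
    rw [hcoord]
    exact tsum_nonneg (hnn a β)
  refine ⟨fun a => ⟨∑' n, ((1 / 2 : ℝ) ^ n) • T n a, h0 a⟩, ?_, ?_⟩
  · apply Continuous.subtype_mk
    have hcs : ∀ n : ℕ, Continuous (fun a => ((1 / 2 : ℝ) ^ n) • T n a) := by
      intro n
      have h := (hT1 n).const_smul ((1 / 2 : ℝ) ^ n)
      exact h
    exact continuous_tsum hcs summable_geometric_two hbd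
  · funext a
    symm
    apply qA_eq
    · intro β hβ
      have hβ' : 0 < (∑' n, ((1 / 2 : ℝ) ^ n) • T n a : L1) β := hβ
      rw [hcoord] at hβ'
      by_contra hcon
      have hall : ∀ n, (1 / 2 : ℝ) ^ n * T n a β = 0 := by
        intro n
        have h1 : ¬ 0 < T n a β := fun h => hcon (hT4 n a β h)
        have h2 : T n a β = 0 := le_antisymm (not_lt.1 h1) (hT3 n a β)
        rw [h2, mul_zero]
      rw [tsum_congr hall, tsum_zero] at hβ'
      exact lt_irrefl _ hβ'
    · intro α hα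
      refine ⟨α, le_rfl, ?_⟩
      show 0 < (∑' n, ((1 / 2 : ℝ) ^ n) • T n a : L1) α
      rw [hcoord]
      obtain ⟨η, hη, hball⟩ := Metric.isOpen_iff.1 ((isOpen_Ioi' α).preimage hf) a hα
      obtain ⟨n, hn⟩ := exists_pow_lt_of_lt_one (show 0 < η / 2 by linarith)
        (by norm_num : (1 / 2 : ℝ) < 1)
      have hpos : 0 < T n a α := by
        apply hT5
        intro b hb
        apply hball
        rw [Metric.mem_ball]
        linarith
      exact lt_of_lt_of_le (mul_pos (hr n) hpos) ((hsc a α).le_tsum n (fun m _ => hnn a α m))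

end lift

/-- base point of `W1` -/
theorem exists_bot : ∃ x0 : W1, ∀ x, x0 ≤ x := by
  obtain ⟨l, _, h2⟩ := exists_ssup (∅ : Set W1) countable_empty
  refine ⟨l, fun x => ?_⟩
  by_contra h
  push Not at h
  obtain ⟨s, hs, _⟩ := h2 x h
  exact hs

/-- the zero element -/
noncomputable def zA : MA := ⟨0, fun _ => le_rfl⟩

theorem eq_zA {x0 : W1} (hx0 : ∀ x, x0 ≤ x) {t : MA} (h : qA t = x0) : t = zA := by
  apply Subtype.ext
  apply lp.ext
  funext β
  show t.1 β = 0
  by_contra hne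
  have h1 : 0 < t.1 β := lt_of_le_of_ne (t.2 β) (Ne.symm hne)
  have h2 := qA_lt h1
  rw [h] at h2
  exact absurd (hx0 β) (not_le.2 h2)

theorem qA_zA {x0 : W1} (hx0 : ∀ x, x0 ≤ x) : qA zA = x0 := by
  apply qA_eq
  · intro β hβ
    exact absurd hβ (lt_irrefl (0 : ℝ))
  · intro α hα
    exact absurd (hx0 α) (not_le.2 hα)

theorem exists_homotopyA {A : Type} [MetricSpace A] (a0 : A) (f g : A → MA)
    (hf : Continuous f) (hg : Continuous g) (hf0 : f a0 = zA) (hg0 : g a0 = zA)
    (hfg : qA ∘ f = qA ∘ g) :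
    ∃ F : A × unitInterval → MA, Continuous F ∧ (∀ a, F (a, 0) = f a) ∧ (∀ a, F (a, 1) = g a) ∧
      (∀ s, F (a0, s) = zA) ∧ ∀ a s s', qA (F (a, s)) = qA (F (a, s')) := by
  have h0 : ∀ (a : A) (s : unitInterval) (β : W1),
      0 ≤ ((1 - (s : ℝ)) • (f a).1 + (s : ℝ) • (g a).1 : L1) β := by
    intro a s β
    have hs1 : (s : ℝ) ≤ 1 := s.2.2
    exact add_nonneg (mul_nonneg (by linarith) ((f a).2 β)) (mul_nonneg s.2.1 ((g a).2 β))
  have hq : ∀ (a : A) (s : unitInterval),
      qA ⟨(1 - (s : ℝ)) • (f a).1 + (s : ℝ) • (g a).1, h0 a s⟩ = qA (f a) := by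
    intro a s
    have hs0 : 0 ≤ (s : ℝ) := s.2.1
    have hs1 : (s : ℝ) ≤ 1 := s.2.2
    have h3 : qA (f a) = qA (g a) := congrFun hfg a
    apply qA_eq
    · intro β hβ
      have hβ' : 0 < (1 - (s : ℝ)) * (f a).1 β + (s : ℝ) * (g a).1 β := hβ
      by_cases h1 : 0 < (f a).1 β
      · exact qA_lt h1
      · by_cases h2 : 0 < (g a).1 β
        · rw [h3]
          exact qA_lt h2
        · have e1 : (f a).1 β = 0 := le_antisymm (not_lt.1 h1) ((f a).2 β)
          have e2 : (g a).1 β = 0 := le_antisymm (not_lt.1 h2) ((g a).2 β)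
          rw [e1, e2] at hβ'
          simp at hβ'
    · intro α hα
      rcases eq_or_lt_of_le hs0 with h | h
      · obtain ⟨β, hβ, hβ2⟩ := lt_qA hα
        refine ⟨β, hβ, ?_⟩
        show 0 < (1 - (s : ℝ)) * (f a).1 β + (s : ℝ) * (g a).1 β
        rw [← h]
        simpa using hβ2
      · rw [h3] at hα
        obtain ⟨β, hβ, hβ2⟩ := lt_qA hα
        refine ⟨β, hβ, ?_⟩
        show 0 < (1 - (s : ℝ)) * (f a).1 β + (s : ℝ) * (g a).1 β
        exact add_pos_of_nonneg_of_pos (mul_nonneg (by linarith) ((f a).2 β)) (mul_pos h hβ2)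
  refine ⟨fun p => ⟨(1 - (p.2 : ℝ)) • (f p.1).1 + (p.2 : ℝ) • (g p.1).1, h0 p.1 p.2⟩,
    ?_, ?_, ?_, ?_, ?_⟩
  · apply Continuous.subtype_mk
    have hf' : Continuous (fun a => (f a).1) := continuous_subtype_val.comp hf
    have hg' : Continuous (fun a => (g a).1) := continuous_subtype_val.comp hg
    have hs : Continuous (fun p : A × unitInterval => (p.2 : ℝ)) :=
      continuous_subtype_val.comp continuous_snd
    exact ((continuous_const.sub hs).smul (hf'.comp continuous_fst)).add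
      (hs.smul (hg'.comp continuous_fst))
  · intro a
    apply Subtype.ext
    simp
  · intro a
    apply Subtype.ext
    simp
  · intro s
    apply Subtype.ext
    show (1 - (s : ℝ)) • (f a0).1 + (s : ℝ) • (g a0).1 = zA.1
    rw [hf0, hg0, ← add_smul]
    simp
  · intro a s s'
    exact (hq a s).trans (hq a s').symm

/-- **(a)** a T₀ based space with a metric analog that is not quasimetrizable -/
theorem partA : ∃ (X : Type) (_ : TopologicalSpace X) (x0 : X), T0Space X ∧
    HasMetricAnalog X x0 ∧ ¬ Quasimetrizable X := by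
  obtain ⟨x0, hx0⟩ := exists_bot
  refine ⟨W1, topW1, x0, inferInstance, ?_, not_quasi⟩
  exact ⟨MA, inferInstance, zA, qA,
    { quot := qA_open.isQuotientMap qA_cont qA_surj
      opn := qA_open
      base := qA_zA hx0
      lift := fun A _ a0 f hf hf0 => by
        obtain ⟨g, hg, hfg⟩ := exists_liftA f hf
        refine ⟨g, hg, eq_zA hx0 ?_, hfg⟩
        rw [← hf0, hfg]
        rfl
      homotopy := fun A _ a0 f g hf hg hf0 hg0 hfg =>
        exists_homotopyA a0 f g hf hg hf0 hg0 hfg }⟩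

end X126.MA
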